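import Pool.Agent.Helper76.TG.StG

/-!
# Project T3K, module LTrT: transport of the Eichler potentials, coordinate `z`, twisted
-/

set_option autoImplicit false

namespace Pool.Agent.Helper99.TG

open Pool.Agent.Helper14.CV Pool.Agent.Helper28.WK Pool.Agent.Helper28.LV Pool.Agent.Helper76.TG
open Polynomial (X C)

private theorem pr_phi (a : ℕ) (s : ℤ) (I : ℤ → ℤ → ℕ → ℂ) (P : Polynomial ℤ) (x y : ℤ) :
    pr (PhNT a s I) P x y = pr I P x y + (s * (-1 : ℤ) ^ a) • pr I (P.comp (C (-1) * X)) (-x) y := by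
  induction P using Polynomial.induction_on' with
  | add P Q hP hQ =>
    rw [pr_add, Polynomial.add_comp, pr_add, pr_add]
    simp only [Pi.add_apply, hP, hQ, smul_add]
    abel
  | monomial n c =>
    have h1 : (Polynomial.monomial n c : Polynomial ℤ) = C c * X ^ n :=
      (Polynomial.C_mul_X_pow_eq_monomial).symm
    have h2 : (C c * X ^ n : Polynomial ℤ).comp (C (-1) * X) = C c * (C ((-1) ^ n) * X ^ n) := by
      rw [Polynomial.mul_comp, Polynomial.pow_comp, Polynomial.C_comp, Polynomial.X_comp, mul_pow,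
        Polynomial.C_pow]
    rw [h1, h2]
    simp only [pr_C_mul, pr_X_pow, Pi.smul_apply, cp, PhNT, smul_add, smul_smul]
    congr 2
    rw [pow_add]
    ring

section

variable {p a n : ℕ} {w s : ℤ} {I : ℤ → ℤ → ℕ → ℂ}

private theorem ne_p {p : ℕ} (hp : p.Prime) : (p : ℤ) ≠ 0 := by exact_mod_cast hp.ne_zero

private theorem ne_neg {x y : ℤ} (h : x ≠ 0 ∨ y ≠ 0) : -x ≠ 0 ∨ y ≠ 0 := by simpa using h

private theorem deg_lin (u i : ℤ) (j : ℕ) : ((C u * X - C i) ^ j : Polynomial ℤ).natDegree ≤ j := by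
  refine (Polynomial.natDegree_pow_le).trans ?_
  have h1 : (C u * X - C i : Polynomial ℤ).natDegree ≤ 1 := by
    rw [sub_eq_add_neg, ← Polynomial.C_neg]
    exact Polynomial.natDegree_linear_le
  nlinarith

private theorem p_eqv (h : IDnT p a n w I) : ∀ α β γ δ : ℤ, α * δ - β * γ = 1 →
    (p : ℤ) ^ n ∣ γ → ∀ i : ℕ, i ≤ 2 * a →
    EqC (act α β γ δ (cp (PhNT a s I) i)) (pr (PhNT a s I) ((C α * X + C β) ^ i *
      (C γ * X + C δ) ^ (2 * a - i))) := by
  intro α β γ δ hd hγ i hi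
  have h1 := h.eqv α β γ δ hd hγ i hi
  have h2 := (h.eqv α (-β) (-γ) δ (by linear_combination hd) ((dvd_neg).2 hγ) i hi).act
    (a := -1) (b := 0) (c := 0) (d := 1) (by norm_num)
  have h3 := h1.add (h2.smul (s * (-1 : ℤ) ^ (a + i)))
  have e1 : act α β γ δ (cp I i) +
      (s * (-1 : ℤ) ^ (a + i)) • act (-1) 0 0 1 (act α (-β) (-γ) δ (cp I i)) =
      act α β γ δ (cp (PhNT a s I) i) := by
    funext x y
    simp only [Pi.add_apply, Pi.smul_apply, act, cp, PhNT]
    have a3 : α * (-1 * x + 0 * y) + -β * (0 * x + 1 * y) = -(α * x + β * y) := by ring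
    have a4 : -γ * (-1 * x + 0 * y) + δ * (0 * x + 1 * y) = γ * x + δ * y := by ring
    rw [a3, a4]
  have b2 : ((C α * X + C β) ^ i * (C γ * X + C δ) ^ (2 * a - i) : Polynomial ℤ).comp
      (C (-1) * X) = C ((-1) ^ i) *
        ((C α * X + C (-β)) ^ i * (C (-γ) * X + C δ) ^ (2 * a - i)) := by
    have c1 : (C α * (C (-1 : ℤ) * X) + C β : Polynomial ℤ) = C (-1 : ℤ) * (C α * X + C (-β)) := by
      simp only [Polynomial.C_neg, map_one]
      ring
    have c2 : (C γ * (C (-1 : ℤ) * X) + C δ : Polynomial ℤ) = C (-γ) * X + C δ := by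
      simp only [Polynomial.C_neg, map_one]
      ring
    rw [Polynomial.mul_comp, Polynomial.pow_comp, Polynomial.pow_comp, Polynomial.add_comp, Polynomial.add_comp,
      Polynomial.mul_comp, Polynomial.mul_comp, Polynomial.C_comp, Polynomial.C_comp, Polynomial.C_comp,
      Polynomial.C_comp, Polynomial.X_comp, c1, c2, mul_pow, ← Polynomial.C_pow, mul_assoc]
  have e2 : pr I ((C α * X + C β) ^ i * (C γ * X + C δ) ^ (2 * a - i)) +
      (s * (-1 : ℤ) ^ (a + i)) • act (-1) 0 0 1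
        (pr I ((C α * X + C (-β)) ^ i * (C (-γ) * X + C δ) ^ (2 * a - i))) =
      pr (PhNT a s I) ((C α * X + C β) ^ i * (C γ * X + C δ) ^ (2 * a - i)) := by
    funext x y
    rw [pr_phi, b2, pr_C_mul]
    simp only [Pi.add_apply, Pi.smul_apply, act, smul_smul]
    have a2 : 0 * x + 1 * y = y := by ring
    have a3 : -1 * x + 0 * y = -x := by ring
    rw [a2, a3]
    congr 2
    rw [pow_add]
    ring
  rw [e1, e2] at h3
  exact h3

private theorem p_fr (hp : p.Prime) (h : IDnT p a n w I) :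
    EqC (act 0 (-1) ((p : ℤ) ^ n) 0 (cp (PhNT a s I) a)) (-(w • cp (PhNT a s I) a)) := by
  obtain ⟨c, hc⟩ := h.fr
  have hH := h.hom a (by omega)
  refine ⟨c + s • c, fun x y hxy => ?_⟩
  have hp1 : (p : ℤ) ^ n ≠ 0 := pow_ne_zero _ (ne_p hp)
  have h1 := hc x y hxy
  have h2 := hc (-x) y (ne_neg hxy)
  have hv2 : y ≠ 0 ∨ (p : ℤ) ^ n * x ≠ 0 := by
    rcases hxy with hx | hy
    · exact Or.inr (mul_ne_zero hp1 hx)
    · exact Or.inl hy
  have h4 := hH (-1) y ((p : ℤ) ^ n * x) (by norm_num) hv2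
  simp only [act, cp, Pi.neg_apply, Pi.smul_apply] at h1 h2 h4
  have e1 : (0 : ℤ) * x + -1 * y = -y := by ring
  have e2 : (p : ℤ) ^ n * x + 0 * y = (p : ℤ) ^ n * x := by ring
  have e3 : (0 : ℤ) * -x + -1 * y = -1 * y := by ring
  have e4 : (p : ℤ) ^ n * -x + 0 * y = -1 * ((p : ℤ) ^ n * x) := by ring
  rw [e1, e2] at h1
  rw [e3, e4, h4] at h2
  simp only [act, cp, Pi.neg_apply, Pi.smul_apply, PhNT]
  have e7 : (-1 : ℤ) ^ (a + a) = 1 := Even.neg_one_pow ⟨a, rfl⟩
  change I (0 * x + -1 * y) ((p : ℤ) ^ n * x + 0 * y) a +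
    (s * (-1) ^ (a + a)) • I (-(0 * x + -1 * y)) ((p : ℤ) ^ n * x + 0 * y) a = _
  rw [e1, e2, neg_neg, h1]
  have h2' : I y ((p : ℤ) ^ n * x) a = -(w • I (-x) y a) + c := h2
  rw [h2', e7, mul_one]
  simp only [zsmul_eq_mul]
  change -((w : ℂ) * I x y a) + c + (s : ℂ) * (-((w : ℂ) * I (-x) y a) + c) =
    -((w : ℂ) * (I x y a + (s : ℂ) * I (-x) y a)) + (c + (s : ℂ) * c)
  ring

private theorem p_st (hs : s * s = 1) :
    EqC (act (-1) 0 0 1 (cp (PhNT a s I) a)) (s • cp (PhNT a s I) a) := by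
  refine EqC.of_eq fun x y _ => ?_
  change I (-1 * x + 0 * y) (0 * x + 1 * y) a +
    (s * (-1) ^ (a + a)) • I (-(-1 * x + 0 * y)) (0 * x + 1 * y) a =
      s • (I x y a + (s * (-1) ^ (a + a)) • I (-x) y a)
  have e1 : -1 * x + 0 * y = -x := by ring
  have e2 : 0 * x + 1 * y = y := by ring
  have e7 : (-1 : ℤ) ^ (a + a) = 1 := Even.neg_one_pow ⟨a, rfl⟩
  rw [e1, e2, neg_neg, e7, mul_one, smul_add, smul_smul, hs, one_smul, add_comm]

/-- the Hecke operators multiply the symmetrised potentials by constants -/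
private theorem hecke (hp : p.Prime) (h : IDnT p a n w I) : ∃ lam : ℕ → ℂ, ∀ (M : ℕ), ∀ l : ℕ, l.Prime → l ≠ p →
    ∀ i : ℕ, i ≤ 2 * a → ∀ x y : ℤ, (x ≠ 0 ∨ y ≠ 0) →
    WT a l ((p : ℤ) ^ M) (PhNT a s I) x y i = lam l * PhNT a s I x y i := by
  obtain ⟨lam, hlam⟩ := h.hk
  refine ⟨lam, fun M l hl hlp i hi x y hxy => ?_⟩
  have hcop : IsCoprime ((p : ℤ) ^ M) (l : ℤ) := by
    refine IsCoprime.pow_left ?_
    rw [Nat.isCoprime_iff_coprime]
    exact (Nat.coprime_primes hp hl).2 (Ne.symm hlp)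
  have hcop' : IsCoprime (-(p : ℤ) ^ M) (l : ℤ) := hcop.neg_left
  have h1 := hlam l ((p : ℤ) ^ M) hl hlp hcop i hi x y hxy
  have h2 := hlam l (-(p : ℤ) ^ M) hl hlp hcop' i hi (-x) y (ne_neg hxy)
  have e2 : ∀ j : ℕ, ((C (l : ℤ) * X - C ((p : ℤ) ^ M * j)) ^ i : Polynomial ℤ).comp (C (-1) * X) =
      C ((-1) ^ i) * (C (l : ℤ) * X - C (-(p : ℤ) ^ M * j)) ^ i := by
    intro j
    rw [Polynomial.pow_comp, Polynomial.sub_comp, Polynomial.mul_comp, Polynomial.C_comp, Polynomial.X_comp,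
      Polynomial.C_comp, Polynomial.C_pow, ← mul_pow]
    congr 1
    have e3 : -(p : ℤ) ^ M * j = -((p : ℤ) ^ M * j) := by ring
    rw [e3, Polynomial.C_neg (a := (p : ℤ) ^ M * j), Polynomial.C_neg, map_one]
    ring
  have key : WT a l ((p : ℤ) ^ M) (PhNT a s I) x y i =
      ((∑ j ∈ Finset.range l, pr I ((C (l : ℤ) * X - C ((p : ℤ) ^ M * j)) ^ i)
        (x + (p : ℤ) ^ M * j * y) (l * y)) + ((l : ℤ) ^ (2 * a - i)) • I (l * x) y i) +
      (s * (-1 : ℤ) ^ (a + i)) • ((∑ j ∈ Finset.range l, pr I ((C (l : ℤ) * X - C (-(p : ℤ) ^ M * j)) ^ i)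
        (-x + -(p : ℤ) ^ M * j * y) (l * y)) + ((l : ℤ) ^ (2 * a - i)) • I (l * -x) y i) := by
    simp only [WT]
    have h3 : ∀ j ∈ Finset.range l, pr (PhNT a s I) ((C (l : ℤ) * X - C ((p : ℤ) ^ M * j)) ^ i)
        (x + (p : ℤ) ^ M * j * y) (l * y) =
        pr I ((C (l : ℤ) * X - C ((p : ℤ) ^ M * j)) ^ i)
          (x + (p : ℤ) ^ M * j * y) (l * y) +
        (s * (-1 : ℤ) ^ (a + i)) • pr I ((C (l : ℤ) * X - C (-(p : ℤ) ^ M * j)) ^ i)
          (-x + -(p : ℤ) ^ M * j * y) (l * y) := by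
      intro j _
      rw [pr_phi, e2, pr_C_mul]
      simp only [Pi.smul_apply, smul_smul]
      have a3 : -(x + (p : ℤ) ^ M * j * y) = -x + -(p : ℤ) ^ M * j * y := by ring
      rw [a3, mul_assoc s, ← pow_add]
    rw [Finset.sum_congr rfl h3, Finset.sum_add_distrib, ← Finset.smul_sum]
    simp only [PhNT, smul_add]
    have a5 : -((l : ℤ) * x) = l * -x := by ring
    rw [a5, smul_comm ((l : ℤ) ^ (2 * a - i)) (s * (-1 : ℤ) ^ (a + i))]
    abel
  rw [key, h1, h2]
  simp only [PhNT, zsmul_eq_mul]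
  ring

/-- words -/
private theorem words (hp : p.Prime) (h : IDnT p a n w I) (M : ℕ) : ∀ ls : List ℕ, Ok p ls → ∃ c : ℂ,
    ∀ i : ℕ, i ≤ 2 * a → ∀ x y : ℤ, (x ≠ 0 ∨ y ≠ 0) →
      WTw a ((p : ℤ) ^ M) ls (PhNT a s I) x y i = c * PhNT a s I x y i := by
  obtain ⟨lam, hlam⟩ := hecke hp h
  intro ls
  induction ls with
  | nil =>
    intro _
    exact ⟨1, fun i _ x y _ => by simp [WTw]⟩
  | cons l ls ih =>
    intro hok
    obtain ⟨c, hc⟩ := ih (fun k hk => hok k (List.mem_cons_of_mem _ hk))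
    obtain ⟨hl, hlp⟩ := hok l List.mem_cons_self
    refine ⟨c * lam l, fun i hi x y hxy => ?_⟩
    have hl0 : (l : ℤ) ≠ 0 := by exact_mod_cast hl.ne_zero
    have hpr : ∀ (P : Polynomial ℤ), P.natDegree ≤ 2 * a → ∀ u v : ℤ, (u ≠ 0 ∨ v ≠ 0) →
        pr (WTw a ((p : ℤ) ^ M) ls (PhNT a s I)) P u v = c * pr (PhNT a s I) P u v := by
      intro P hP u v huv
      rw [pr_eq_sum _ P (2 * a + 1) (by omega), pr_eq_sum _ P (2 * a + 1) (by omega)]
      simp only [Finset.sum_apply, Pi.smul_apply, cp, Finset.mul_sum]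
      refine Finset.sum_congr rfl fun k hk => ?_
      rw [Finset.mem_range] at hk
      rw [hc k (by omega) u v huv, mul_smul_comm]
    have h1 := hlam M l hl hlp i hi x y hxy
    have hgoal : WTw a ((p : ℤ) ^ M) (l :: ls) (PhNT a s I) x y i =
        c * WT a l ((p : ℤ) ^ M) (PhNT a s I) x y i := by
      simp only [WTw, WT]
      rw [mul_add, Finset.mul_sum]
      congr 1
      · refine Finset.sum_congr rfl fun j _ => ?_
        refine hpr _ ((deg_lin _ _ _).trans hi) _ _ ?_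
        by_cases hy : y = 0
        · left
          subst hy
          simpa using hxy
        · exact Or.inr (mul_ne_zero hl0 hy)
      · rw [hc i hi (l * x) y, mul_smul_comm]
        rcases hxy with hx | hy
        · exact Or.inl (mul_ne_zero hl0 hx)
        · exact Or.inr hy
    rw [hgoal, h1]
    ring

end

/-- the value at the vector v, D on the central polynomial -/
private noncomputable def hv (a D : ℕ) (I : ℤ → ℤ → ℕ → ℂ) (v : ℤ) : ℂ :=
  pr I ((C (D : ℤ) * X - C v) ^ a) v D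

/-- translation -/
private theorem pr_shift {p a n : ℕ} {w : ℤ} {I : ℤ → ℤ → ℕ → ℂ} (h : IDnT p a n w I) (P : Polynomial ℤ) (hP : P.natDegree ≤ 2 * a)
    (x y : ℤ) (hxy : x ≠ 0 ∨ y ≠ 0) : pr I P (x + y) y = pr I (P.comp (X + 1)) x y := by
  have hinf : ∀ (Q : Polynomial ℤ), Q.natDegree ≤ 2 * a → pr I Q 1 0 = 0 := by
    intro Q hQ
    rw [pr_eq_sum _ Q (2 * a + 1) (by omega)]
    simp only [Finset.sum_apply, Pi.smul_apply, cp]
    refine Finset.sum_eq_zero fun k hk => ?_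
    rw [Finset.mem_range] at hk
    rw [h.inf k (by omega), smul_zero]
  have hi : ∀ i : ℕ, i ≤ 2 * a → ∀ x y : ℤ, (x ≠ 0 ∨ y ≠ 0) → I (x + y) y i = pr I ((X + 1) ^ i) x y := by
    intro i hi x y hxy
    obtain ⟨c, hc⟩ := h.eqv 1 1 0 1 (by norm_num) (dvd_zero _) i hi
    have e : ((C (1 : ℤ) * X + C 1) ^ i * (C (0 : ℤ) * X + C 1) ^ (2 * a - i) : Polynomial ℤ) = (X + 1) ^ i := by
      simp
    rw [e] at hc
    have h0 := hc 1 0 (Or.inl one_ne_zero)
    rw [hinf _ (by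
      refine (Polynomial.natDegree_pow_le).trans ?_
      have : (X + 1 : Polynomial ℤ).natDegree ≤ 1 := by
        simpa using Polynomial.natDegree_linear_le (a := (1 : ℤ)) (b := 1)
      nlinarith)] at h0
    simp only [act, cp] at h0
    have e1 : (1 : ℤ) * 1 + 1 * 0 = 1 := by norm_num
    have e2 : (0 : ℤ) * 1 + 1 * 0 = 0 := by norm_num
    rw [e1, e2, h.inf i hi, zero_add] at h0
    have h1 := hc x y hxy
    simp only [act, cp] at h1
    rw [← h0, add_zero] at h1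
    have e3 : 1 * x + 1 * y = x + y := by ring
    have e4 : 0 * x + 1 * y = y := by ring
    rw [e3, e4] at h1
    exact h1
  have hc : P.comp (X + 1) = ∑ i ∈ Finset.range (2 * a + 1), C (P.coeff i) * (X + 1) ^ i := by
    conv_lhs => rw [P.as_sum_range_C_mul_X_pow' (show P.natDegree < 2 * a + 1 by omega)]
    rw [Polynomial.sum_comp]
    refine Finset.sum_congr rfl fun i _ => ?_
    rw [Polynomial.mul_comp, Polynomial.C_comp, Polynomial.pow_comp, Polynomial.X_comp]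
  rw [hc, pr_sum, pr_eq_sum _ P (2 * a + 1) (by omega)]
  simp only [Finset.sum_apply, pr_C_mul, Pi.smul_apply, cp]
  refine Finset.sum_congr rfl fun i hir => ?_
  rw [Finset.mem_range] at hir
  rw [hi i (by omega) x y hxy]

private theorem hv_per {p a n D : ℕ} {w : ℤ} {I : ℤ → ℤ → ℕ → ℂ} (h : IDnT p a n w I) (hD : D ≠ 0) (v : ℤ) :
    hv a D I (v + D) = hv a D I v := by
  unfold hv
  rw [pr_shift h _ ((deg_lin _ _ _).trans (by omega)) v D (Or.inr (by exact_mod_cast hD))]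
  congr 2
  rw [Polynomial.pow_comp, Polynomial.sub_comp, Polynomial.mul_comp, Polynomial.C_comp, Polynomial.X_comp,
    Polynomial.C_comp, Polynomial.C_add]
  congr 1
  ring

/-- sums of periodic functions over residue classes -/
private theorem per_sum (D : ℕ) (hD : D ≠ 0) (f : ℤ → ℂ) (hf : ∀ v, f (v + D) = f v) (t : ℤ) (ht : IsCoprime t (D : ℤ)) :
    ∑ b ∈ Finset.range D, f (t * b) = ∑ b ∈ Finset.range D, f b := by
  have : NeZero D := ⟨hD⟩
  have hper : Function.Periodic f (D : ℤ) := hf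
  have hF : ∀ v : ℤ, f (((v : ZMod D).val : ℕ) : ℤ) = f v := by
    intro v
    rw [ZMod.val_intCast, Int.emod_def, mul_comm]
    exact hper.sub_int_mul_eq _
  have hsum : ∀ g : ℤ → ℂ, ∑ b ∈ Finset.range D, g b = ∑ x : ZMod D, g ((x.val : ℕ) : ℤ) := by
    intro g
    obtain ⟨k, rfl⟩ := Nat.exists_eq_succ_of_ne_zero hD
    exact Finset.sum_range (fun b : ℕ => g b)
  have hu : IsUnit ((t : ℤ) : ZMod D) := by
    obtain ⟨u, v, huv⟩ := ht
    have h1 : ((u * t + v * D : ℤ) : ZMod D) = 1 := by rw [huv]; simp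
    push_cast at h1
    rw [ZMod.natCast_self, mul_zero, add_zero] at h1
    exact IsUnit.of_mul_eq_one _ (by rw [mul_comm]; exact h1)
  obtain ⟨u, hu⟩ := hu
  rw [hsum (fun v => f (t * v)), hsum f]
  rw [← Equiv.sum_comp (Units.mulLeft u) (fun x : ZMod D => f ((x.val : ℕ) : ℤ))]
  refine Finset.sum_congr rfl fun x _ => ?_
  have e : (Units.mulLeft u) x = ((t * ((x.val : ℕ) : ℤ) : ℤ) : ZMod D) := by
    rw [Units.mulLeft_apply, hu]
    push_cast
    rw [ZMod.natCast_zmod_val]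
  rw [e, hF]

private theorem tw_sum {p a n D : ℕ} {w : ℤ} {I : ℤ → ℤ → ℕ → ℂ} (h : IDnT p a n w I) (hD : D ≠ 0) (h0 : eI a D I = 0)
    (t : ℤ) (ht : IsCoprime t (D : ℤ)) :
    ∑ b ∈ Finset.range D, (jacobiSym (b : ℤ) D : ℂ) * hv a D I (t * b) = 0 := by
  have hsq : ((jacobiSym t D : ℤ) : ℂ) * ((jacobiSym t D : ℤ) : ℂ) = 1 := by
    have h1 : jacobiSym t D ^ 2 = 1 := jacobiSym.sq_one (Int.isCoprime_iff_gcd_eq_one.1 ht)
    rw [← Int.cast_mul, ← pow_two, h1, Int.cast_one]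
  have h1 := per_sum D hD (fun v => (jacobiSym v D : ℂ) * hv a D I v) (fun v => by
    have e1 : jacobiSym (v + D) D = jacobiSym v D := jacobiSym.mod_left' (by simp)
    simp only [e1, hv_per h hD]) t ht
  have h2 : ∑ b ∈ Finset.range D, ((jacobiSym (b : ℤ) D : ℤ) : ℂ) * hv a D I b = 0 := h0
  rw [h2] at h1
  have h3 : ∑ b ∈ Finset.range D, ((jacobiSym (b : ℤ) D : ℤ) : ℂ) * hv a D I (t * b) =
      ((jacobiSym t D : ℤ) : ℂ) * ∑ b ∈ Finset.range D, ((jacobiSym (t * b) D : ℤ) : ℂ) * hv a D I (t * b) := by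
    rw [Finset.mul_sum]
    refine Finset.sum_congr rfl fun b _ => ?_
    rw [jacobiSym.mul_left, Int.cast_mul]
    linear_combination (-(((jacobiSym (b : ℤ) D : ℤ) : ℂ) * hv a D I (t * b))) * hsq
  rw [h3, h1, mul_zero]

theorem hLTrT : StLTrT := by
  intro p a n D I hp hodd hcop h h0
  have hD : D ≠ 0 := by
    rintro rfl
    exact absurd hodd (by decide)
  have hs : jacobiSym (-1) D * jacobiSym (-1) D = 1 := by
    rw [← pow_two]
    exact jacobiSym.sq_one (by simp)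
  refine ⟨?_, p_eqv h, p_fr hp h, p_st hs, ?_⟩
  · intro i hi k x y hk hxy
    simp only [cp, PhNT]
    have h1 := h.hom i hi k x y hk hxy
    have h2 := h.hom i hi k (-x) y hk (ne_neg hxy)
    simp only [cp] at h1 h2
    have a2 : -(k * x) = k * -x := by ring
    rw [a2, h1, h2]
  · intro M _ ls hls
    obtain ⟨c, hc⟩ := words hp h M ls hls
    set s : ℤ := jacobiSym (-1) D with hsdef
    set m : ℤ := (p : ℤ) ^ M with hm
    have hpr : ∀ (P : Polynomial ℤ), P.natDegree ≤ 2 * a → ∀ u v : ℤ, (u ≠ 0 ∨ v ≠ 0) →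
        pr (WTw a m ls (PhNT a s I)) P u v = c * pr (PhNT a s I) P u v := by
      intro P hP u v huv
      rw [pr_eq_sum _ P (2 * a + 1) (by omega), pr_eq_sum _ P (2 * a + 1) (by omega)]
      simp only [Finset.sum_apply, Pi.smul_apply, cp, Finset.mul_sum]
      refine Finset.sum_congr rfl fun k hk => ?_
      rw [Finset.mem_range] at hk
      rw [hc k (by omega) u v huv, mul_smul_comm]
    have hinf : ∀ (Q : Polynomial ℤ), Q.natDegree ≤ 2 * a → pr (PhNT a s I) Q 1 0 = 0 := by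
      intro Q hQ
      rw [pr_eq_sum _ Q (2 * a + 1) (by omega)]
      simp only [Finset.sum_apply, Pi.smul_apply, cp]
      refine Finset.sum_eq_zero fun k hk => ?_
      rw [Finset.mem_range] at hk
      have e1 := h.hom k (by omega) (-1) 1 0 (by norm_num) (Or.inl one_ne_zero)
      simp only [cp, mul_one, mul_zero] at e1
      simp only [PhNT, e1, h.inf k (by omega), smul_zero, add_zero]
    have hm' : IsCoprime m (D : ℤ) := by
      rw [hm]
      exact IsCoprime.pow_left (Nat.isCoprime_iff_coprime.2 hcop)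
    have hval : ∀ b : ℕ, pr (PhNT a s I) ((C (D : ℤ) * X - C (m * b)) ^ a) (m * b) D =
        hv a D I (m * b) + (s : ℂ) * hv a D I (-m * b) := by
      intro b
      rw [pr_phi]
      have e2 : ((C (D : ℤ) * X - C (m * b)) ^ a : Polynomial ℤ).comp (C (-1) * X) =
          C ((-1) ^ a) * (C (D : ℤ) * X - C (-m * b)) ^ a := by
        rw [Polynomial.pow_comp, Polynomial.sub_comp, Polynomial.mul_comp, Polynomial.C_comp, Polynomial.X_comp,
          Polynomial.C_comp, Polynomial.C_pow, ← mul_pow]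
        congr 1
        have e3 : -m * b = -(m * b) := by ring
        rw [e3, Polynomial.C_neg (a := m * b), Polynomial.C_neg, map_one]
        ring
      rw [e2, pr_C_mul]
      simp only [Pi.smul_apply, smul_smul]
      have e4 : s * (-1) ^ a * (-1) ^ a = s := by
        rw [mul_assoc, ← pow_add, Even.neg_one_pow ⟨a, rfl⟩, mul_one]
      have e5 : -(m * (b : ℤ)) = -m * b := by ring
      rw [e4, e5, zsmul_eq_mul]
      rfl
    unfold eW
    have hD' : ∀ b : ℕ, (m * (b : ℤ) ≠ 0 ∨ (D : ℤ) ≠ 0) := fun b => Or.inr (by exact_mod_cast hD)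
    have hdeg : ∀ b : ℕ, ((C (D : ℤ) * X - C (m * b)) ^ a : Polynomial ℤ).natDegree ≤ 2 * a :=
      fun b => (deg_lin _ _ _).trans (by omega)
    have hterm : ∀ b ∈ Finset.range D, jacobiSym (b : ℤ) D •
        (pr (WTw a m ls (PhNT a s I)) ((C (D : ℤ) * X - C (m * b)) ^ a) (m * b) D -
          pr (WTw a m ls (PhNT a s I)) ((C (D : ℤ) * X - C (m * b)) ^ a) 1 0) =
        c * ((jacobiSym (b : ℤ) D : ℂ) * hv a D I (m * b)) +
          c * s * ((jacobiSym (b : ℤ) D : ℂ) * hv a D I (-m * b)) := by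
      intro b _
      rw [hpr _ (hdeg b) _ _ (hD' b), hpr _ (hdeg b) 1 0 (Or.inl one_ne_zero), hinf _ (hdeg b), hval,
        zsmul_eq_mul]
      ring
    rw [Finset.sum_congr rfl hterm, Finset.sum_add_distrib, ← Finset.mul_sum, ← Finset.mul_sum,
      tw_sum h hD h0 m hm', tw_sum h hD h0 (-m) hm'.neg_left, mul_zero, mul_zero, add_zero]

end Pool.Agent.Helper99.TG
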